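import Mathlib

/-!
# Rows without primes `2^n + 2^i + 1`

Divisibility by the Fermat numbers leaves, in the row `n = 2^k`, only the exponents
`i = 1 + t 2^k`; for suitable `k` these are removed by small primes.
-/

set_option autoImplicit false

namespace Pool.Agent.Results.MP_4a257e_nt.EmptyRows

/-- a proper divisor makes the number composite -/
lemma not_prime_of_dvd {F N : ℕ} (h : F ∣ N) (h1 : 1 < F) (h2 : F < N) : ¬ N.Prime := by
  intro hp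
  rcases (Nat.dvd_prime hp).1 h with h | h <;> omega

/-- `2^(2^j m) = -1` modulo the Fermat number `2^(2^j) + 1`, for odd `m` -/
lemma fermat_odd (j m : ℕ) (hm : Odd m) : ((2 : ℤ) ^ (2 ^ j) + 1) ∣ 2 ^ (2 ^ j * m) + 1 := by
  have h := Odd.add_dvd_pow_add_pow ((2 : ℤ) ^ (2 ^ j)) 1 hm
  simpa [← pow_mul] using h

/-- `2^(2^(j+1) m) = 1` modulo the Fermat number `2^(2^j) + 1` -/
lemma fermat_even (j m : ℕ) : ((2 : ℤ) ^ (2 ^ j) + 1) ∣ 2 ^ (2 ^ (j + 1) * m) - 1 := by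
  have h1 : ((2 : ℤ) ^ (2 ^ j) + 1) ∣ (2 : ℤ) ^ (2 ^ (j + 1)) - 1 :=
    ⟨(2 : ℤ) ^ (2 ^ j) - 1, by rw [pow_succ, pow_mul]; ring⟩
  have h2 : ((2 : ℤ) ^ (2 ^ (j + 1)) - 1) ∣ ((2 : ℤ) ^ (2 ^ (j + 1))) ^ m - 1 := by
    simpa using sub_dvd_pow_sub_pow ((2 : ℤ) ^ (2 ^ (j + 1))) 1 m
  rw [pow_mul]
  exact h1.trans h2

/-- if `2^(j+1)` divides `n` and `i - 1` is `2^j` times an odd number, then the Fermat number with
index `j` divides `2^n + 2^i + 1` -/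
lemma fermat_dvd {j n m i : ℕ} (hn : 2 ^ (j + 1) ∣ n) (hm : Odd m) (hi : i = 2 ^ j * m + 1) :
    2 ^ (2 ^ j) + 1 ∣ 2 ^ n + 2 ^ i + 1 := by
  obtain ⟨c, rfl⟩ := hn
  have h1 := fermat_even j c
  have h2 := fermat_odd j m hm
  have : ((2 : ℤ) ^ (2 ^ j) + 1) ∣ 2 ^ (2 ^ (j + 1) * c) + 2 ^ i + 1 := by
    have e : (2 : ℤ) ^ (2 ^ (j + 1) * c) + 2 ^ i + 1 =
        (2 ^ (2 ^ (j + 1) * c) - 1) + 2 * (2 ^ (2 ^ j * m) + 1) := by rw [hi, pow_succ]; ring
    rw [e]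
    exact dvd_add h1 (h2.mul_left 2)
  exact_mod_cast this

/-- the sieve of the row `n` by Fermat numbers: only `i = 1` modulo the powers of two dividing `n`
can give a prime -/
lemma row {k n i : ℕ} (hn0 : 0 < n) (hi0 : 0 < i) (hk : 2 ^ k ∣ n)
    (hp : (2 ^ n + 2 ^ i + 1).Prime) : 2 ^ k ∣ i - 1 := by
  by_contra hnd
  have hi1 : i - 1 ≠ 0 := by rintro h; exact hnd (h ▸ dvd_zero _)
  obtain ⟨j, m, hm, hjm⟩ := Nat.exists_eq_two_pow_mul_odd hi1
  have hjk : j < k := by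
    by_contra h
    exact hnd (hjm ▸ (pow_dvd_pow 2 (not_lt.1 h)).mul_right m)
  have hn : 2 ^ (j + 1) ∣ n := (pow_dvd_pow 2 hjk).trans hk
  have hd := fermat_dvd hn hm (i := i) (by omega)
  have hle : 2 ^ (j + 1) ≤ n := Nat.le_of_dvd hn0 hn
  have hlt : 2 ^ (2 ^ j) ≤ 2 ^ n :=
    Nat.pow_le_pow_right (by norm_num) (le_trans (Nat.pow_le_pow_right (by norm_num) (by omega)) hle)
  have h2i : 0 < 2 ^ i := by positivity
  have h2j : 0 < 2 ^ (2 ^ j) := by positivity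
  exact not_prime_of_dvd hd (by omega) (by omega) hp

/-- the value of `2^(2^k)` modulo `p` is the same for all `k = a` modulo `M`, `k ≥ a` -/
lemma periodic {p D a M c : ℕ} (h1 : 2 ^ D % p = 1 % p) (h2 : 2 ^ (a + M) % D = 2 ^ a % D)
    (h3 : 2 ^ (2 ^ a % D) % p = c % p) (s : ℕ) : 2 ^ (2 ^ (a + M * s)) ≡ c [MOD p] := by
  have h2' : ∀ s : ℕ, 2 ^ (a + M * s) ≡ 2 ^ a [MOD D] := by
    intro s
    induction s with
    | zero => simp [Nat.ModEq]
    | succ s ih =>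
      have e : 2 ^ (a + M * (s + 1)) = 2 ^ (a + M * s) * 2 ^ M := by rw [← pow_add]; ring_nf
      rw [e]
      refine (ih.mul_right _).trans ?_
      rw [← pow_add]
      exact h2
  have hD : ∀ x : ℕ, 2 ^ x ≡ 2 ^ (x % D) [MOD p] := by
    intro x
    conv_lhs => rw [← Nat.div_add_mod x D, pow_add, pow_mul]
    have : (2 ^ D) ^ (x / D) ≡ 1 [MOD p] := by
      simpa using Nat.ModEq.pow (x / D) (show 2 ^ D ≡ 1 [MOD p] from h1)
    simpa using this.mul_right (2 ^ (x % D))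
  refine (hD _).trans ?_
  rw [show 2 ^ (a + M * s) % D = 2 ^ a % D from h2' s]
  exact h3

/-- a prime found in the class `k = a` modulo `M` divides `2^(2^k) + 2^(1 + t 2^k) + 1` -/
lemma kill {p D a M c t : ℕ} (h1 : 2 ^ D % p = 1 % p) (h2 : 2 ^ (a + M) % D = 2 ^ a % D)
    (h3 : 2 ^ (2 ^ a % D) % p = c % p) (h4 : p ∣ c + 2 * c ^ t + 1) (hp1 : 1 < p)
    (hp2 : p ≤ 2 ^ (2 ^ a)) (s : ℕ) :
    ¬ (2 ^ (2 ^ (a + M * s)) + 2 ^ (1 + t * 2 ^ (a + M * s)) + 1).Prime := by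
  set k := a + M * s with hk
  have hc : 2 ^ (2 ^ k) ≡ c [MOD p] := periodic h1 h2 h3 s
  have hN : 2 ^ (2 ^ k) + 2 ^ (1 + t * 2 ^ k) + 1 ≡ c + 2 * c ^ t + 1 [MOD p] := by
    have e : 2 ^ (1 + t * 2 ^ k) = 2 * (2 ^ (2 ^ k)) ^ t := by
      rw [← pow_mul, mul_comm (2 ^ k) t]; ring
    rw [e]
    exact (hc.add ((hc.pow t).mul_left 2)).add_right 1
  have hd : p ∣ 2 ^ (2 ^ k) + 2 ^ (1 + t * 2 ^ k) + 1 :=
    (Nat.modEq_zero_iff_dvd).1 (hN.trans ((Nat.modEq_zero_iff_dvd).2 h4))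
  have hle : 2 ^ (2 ^ a) ≤ 2 ^ (2 ^ k) :=
    Nat.pow_le_pow_right (by norm_num) (Nat.pow_le_pow_right (by norm_num) (by omega))
  have h0 : 0 < 2 ^ (1 + t * 2 ^ k) := by positivity
  exact not_prime_of_dvd hd hp1 (by omega)

/-- reduction of a row `n = 2^k` to the exponents `1 + t 2^k` -/
lemma row_of {k T : ℕ}
    (h : ∀ t < T, ¬ (2 ^ (2 ^ k) + 2 ^ (1 + t * 2 ^ k) + 1).Prime) {i : ℕ} (hi0 : 0 < i)
    (hi : i ≤ T * 2 ^ k) : ¬ (2 ^ (2 ^ k) + 2 ^ i + 1).Prime := by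
  intro hp
  obtain ⟨t, ht⟩ := row (by positivity) hi0 (dvd_refl (2 ^ k)) hp
  have hit : i = 1 + t * 2 ^ k := by rw [mul_comm t, ← ht]; omega
  refine h t ?_ (hit ▸ hp)
  have : t * 2 ^ k < T * 2 ^ k := by omega
  exact lt_of_mul_lt_mul_right this (by positivity)

/-- the check of one line `(p, D, c)` of a table: `D` is an exponent with `2^D = 1` modulo `p`, `c` is
the value of `2^(2^k)` modulo `p`, and `p` divides the number with index `t` -/
def ok (a M t : ℕ) (q : ℕ × ℕ × ℕ) : Bool :=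
  decide (2 ^ q.2.1 % q.1 = 1 % q.1) && decide (2 ^ (a + M) % q.2.1 = 2 ^ a % q.2.1) &&
    decide (2 ^ (2 ^ a % q.2.1) % q.1 = q.2.2 % q.1) &&
    decide (q.1 ∣ q.2.2 + 2 * q.2.2 ^ t + 1) && decide (1 < q.1) && decide (q.1 ≤ 2 ^ 20)

/-- a table whose lines are all correct empties the rows `n = 2^k`, `k = a` modulo `M`, up to
`i = T n` -/
lemma of_table {a M T : ℕ} (L : List (ℕ × ℕ × ℕ)) (ha : 5 ≤ a) (haM : a < M)
    (h : (List.range T).all (fun t => ok a M t (L.getD t (0, 0, 0))) = true) {k : ℕ}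
    (hk : k ≡ a [MOD M]) {i : ℕ} (hi0 : 0 < i) (hi : i ≤ T * 2 ^ k) :
    ¬ (2 ^ (2 ^ k) + 2 ^ i + 1).Prime := by
  have hka : k = a + M * (k / M) := by
    have h1 : k % M = a := by
      have := hk
      rw [Nat.ModEq, Nat.mod_eq_of_lt haM] at this
      exact this
    have := Nat.mod_add_div k M
    omega
  refine row_of (fun t ht => ?_) hi0 hi
  rw [List.all_eq_true] at h
  have := h t (List.mem_range.2 ht)
  simp only [ok, Bool.and_eq_true, decide_eq_true_eq] at this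
  obtain ⟨⟨⟨⟨⟨h1, h2⟩, h3⟩, h4⟩, h5⟩, h6⟩ := this
  have h7 : (2 : ℕ) ^ 20 ≤ 2 ^ (2 ^ a) :=
    Nat.pow_le_pow_right (by norm_num) (le_trans (by norm_num : 20 ≤ 2 ^ 5)
      (Nat.pow_le_pow_right (by norm_num) ha))
  rw [hka]
  exact kill h1 h2 h3 h4 h5 (h6.trans h7) (k / M)

/-- the table for `k = 693092` modulo `720720` -/
def table : List (ℕ × ℕ × ℕ) :=
  [(19, 18, 16), (7, 3, 2), (23, 11, 16), (59, 58, 35), (7, 3, 2), (12611, 12610, 6920),
   (37, 36, 16), (7, 3, 2), (47, 23, 18), (19, 18, 16), (7, 3, 2), (197, 196, 90),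
   (8689, 4344, 119), (7, 3, 2), (691, 230, 582), (37, 36, 16), (7, 3, 2), (883, 882, 253),
   (19, 18, 16), (7, 3, 2), (1087, 543, 84), (79, 39, 36), (7, 3, 2), (610457, 6937, 61617),
   (23, 11, 16), (7, 3, 2), (17551, 2925, 9700), (19, 18, 16), (7, 3, 2), (107, 106, 36),
   (977, 488, 61), (7, 3, 2), (59, 58, 35), (37, 36, 16), (7, 3, 2), (23, 11, 16),
   (19, 18, 16), (7, 3, 2), (9791, 4895, 3909), (937, 117, 292), (7, 3, 2), (1279, 639, 826),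
   (37, 36, 16), (7, 3, 2), (26029, 8676, 3341), (19, 18, 16), (7, 3, 2)]

lemma table_ok :
    (List.range 47).all (fun t => ok 693092 720720 t (table.getD t (0, 0, 0))) = true := by
  decide +kernel

/-- the table for `k = 11` modulo `12` -/
def table5 : List (ℕ × ℕ × ℕ) := [(7, 3, 4), (19, 18, 6), (11, 10, 3), (7, 3, 4), (37, 36, 7)]

lemma table5_ok :
    (List.range 5).all (fun t => ok 11 12 t (table5.getD t (0, 0, 0))) = true := by
  decide +kernel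

/-- **Rows without primes with three one bits.** Let `n = 2^k`.

If `k ≥ 3` is odd, then `2^n + 2^i + 1` is composite for all `0 < i ≤ n`; if `k ≡ 11 (mod 12)`, then
for all `0 < i ≤ 5 n`; if `k ≡ 693092 (mod 720720)`, then for all `0 < i ≤ 47 n`. In particular there
are infinitely many `n` such that `2^n + 2^i + 1` is composite for all `0 < i ≤ 47 n`. -/
theorem result :
    (∀ k : ℕ, 3 ≤ k → Odd k → ∀ i, 0 < i → i ≤ 2 ^ k → ¬ (2 ^ (2 ^ k) + 2 ^ i + 1).Prime) ∧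
    (∀ k : ℕ, k ≡ 11 [MOD 12] → ∀ i, 0 < i → i ≤ 5 * 2 ^ k →
      ¬ (2 ^ (2 ^ k) + 2 ^ i + 1).Prime) ∧
    (∀ k : ℕ, k ≡ 693092 [MOD 720720] → ∀ i, 0 < i → i ≤ 47 * 2 ^ k →
      ¬ (2 ^ (2 ^ k) + 2 ^ i + 1).Prime) ∧
    {n : ℕ | ∀ i, 0 < i → i ≤ 47 * n → ¬ (2 ^ n + 2 ^ i + 1).Prime}.Infinite := by
  have h47 : ∀ k : ℕ, k ≡ 693092 [MOD 720720] → ∀ i, 0 < i → i ≤ 47 * 2 ^ k →
      ¬ (2 ^ (2 ^ k) + 2 ^ i + 1).Prime := fun k hk i hi0 hi =>
    of_table table (by norm_num) (by norm_num) table_ok hk hi0 hi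
  refine ⟨fun k hk3 hko i hi0 hi => ?_, fun k hk i hi0 hi => ?_, h47, ?_⟩
  · obtain ⟨s, hs⟩ : ∃ s, k = 3 + 2 * s := by
      obtain ⟨r, hr⟩ := hko
      exact ⟨r - 1, by omega⟩
    refine row_of (T := 1) (fun t ht => ?_) hi0 (by omega)
    obtain rfl : t = 0 := by omega
    rw [hs]
    exact kill (p := 7) (D := 3) (c := 4) (by norm_num) (by norm_num) (by norm_num) (by norm_num)
      (by norm_num) (by norm_num) s
  · exact of_table table5 (by norm_num) (by norm_num) table5_ok hk hi0 hi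
  · refine Set.infinite_of_injective_forall_mem (f := fun s : ℕ => 2 ^ (693092 + 720720 * s)) ?_ ?_
    · intro s s' h
      have := Nat.pow_right_injective (le_refl 2) h
      omega
    · intro s i hi0 hi
      exact h47 _ (by simp [Nat.ModEq]) i hi0 hi

end Pool.Agent.Results.MP_4a257e_nt.EmptyRows
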