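import Mathlib
import Pool.Agent.DigM.MainK

/-!
# Primes `⌊x a^n⌋ + a^i + 1`: a prescribed first part of the digits, almost every `x`

Q1 of the problem asks for infinitely many primes `2^n + 2^i + 1`, `0 < i < n`. Here the leading one
bit, the real number `x = 1`, is replaced by almost every real `x > 0` (and the base `2` by any
integer `a ≥ 2`). For almost every `x > 0` the `n` for which at least `τ` of the numbers
`⌊x a^n⌋ + a^i + 1` with `θ n < i < η n` are prime have positive upper density, for all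
`0 ≤ θ < η ≤ 1` and all `τ`.
-/

open Finset Filter MeasureTheory

namespace Pool.Agent.Results.MP_4a257e_nt.LeadingDigits

/-- The indices `i` with `0 < i < n`, `θ n < i < η n` for which `⌊x a^n⌋ + a^i + 1` is prime. -/
def PrimeIndices (a : ℕ) (θ η x : ℝ) (n : ℕ) : Set ℕ :=
  {i : ℕ | 0 < i ∧ i < n ∧ θ * n < i ∧ (i : ℝ) < η * n ∧ (⌊x * (a : ℝ) ^ n⌋₊ + a ^ i + 1).Prime}

theorem result (a : ℕ) (ha : 2 ≤ a) (θ η : ℝ) (hθ : 0 ≤ θ) (hθη : θ < η) (hη : η ≤ 1) (τ : ℕ) :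
    ∃ δ : ℝ, 0 < δ ∧ ∀ᵐ x : ℝ, 0 < x → ∃ᶠ N : ℕ in atTop,
      δ * N ≤ (({n : ℕ | n < N ∧ τ ≤ (PrimeIndices a θ η x n).ncard}.ncard : ℕ) : ℝ) := by
  classical
  obtain ⟨δ, hδ, h⟩ := Pool.Agent.DigM.mainK a ha θ η hθ hθη hη τ
  refine ⟨δ, hδ, ?_⟩
  filter_upwards [h] with x hx hx0
  refine (hx hx0).mono fun N hN => hN.trans (le_of_eq ?_)
  refine congrArg (fun m : ℕ => (m : ℝ)) ?_
  have e : ∀ n : ℕ, (PrimeIndices a θ η x n).ncard = ((Ioo 0 n).filter fun i : ℕ => θ * n < i ∧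
      (i : ℝ) < η * n ∧ (⌊x * (a : ℝ) ^ n⌋₊ + a ^ i + 1).Prime).card := by
    intro n
    rw [← Set.ncard_coe_finset]
    refine congrArg Set.ncard ?_
    ext i
    simp only [PrimeIndices, Set.mem_ofPred_eq, Finset.coe_filter, Finset.mem_Ioo, and_assoc]
  rw [← Set.ncard_coe_finset]
  refine congrArg Set.ncard ?_
  ext n
  simp only [Finset.coe_filter, Finset.mem_range, Set.mem_ofPred_eq, e]

end Pool.Agent.Results.MP_4a257e_nt.LeadingDigits
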