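import Mathlib
import Pool.Agent.TOB.Up

/-!
# MP_4a257e_nt: primes with three one bits in almost every base

(1) For almost every real base `α > 1` the numbers `⌊α ^ n + α ^ i + 1⌋`, `0 < i < n`, are prime for some `i` for a set of
positive upper density of the `n`. (Second moment over the exponents `n / 4 ≤ i ≤ n / 4 + κ n`; the upper bound for the pairs is
Selberg's sieve for prime pairs.)
(2) For almost every real base `α > e` they are prime for no `i` for a set of positive upper density of the `n`. (First moment,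
with the prime number theorem.)
Folder `Pool/Agent/TOB`.
-/

set_option autoImplicit false

namespace Pool.Agent.Results.MP_4a257e_nt.MetricBase

open MeasureTheory Filter

theorem result :
    (∀ A B : ℝ, 1 < A → ∃ c : ℝ, 0 < c ∧ ∀ᵐ α : ℝ, A ≤ α → α ≤ B → ∃ᶠ N : ℕ in atTop,
      c * N ≤ (Nat.card {n : ℕ // n < N ∧ ∃ i : ℕ, 0 < i ∧ i < n ∧ (⌊α ^ n + α ^ i + 1⌋₊).Prime} : ℝ)) ∧
    (∀ A B : ℝ, Real.exp 1 < A → ∃ c : ℝ, 0 < c ∧ ∀ᵐ α : ℝ, A ≤ α → α ≤ B → ∃ᶠ N : ℕ in atTop,
      c * N ≤ (Nat.card {n : ℕ // n < N ∧ ∀ i : ℕ, 0 < i → i < n → ¬ (⌊α ^ n + α ^ i + 1⌋₊).Prime} : ℝ)) :=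
  ⟨TOB.metric_base, TOB.metric_empty⟩

end Pool.Agent.Results.MP_4a257e_nt.MetricBase
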